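import Mathlib
import Pool.Agent.W307.RS.Stm

/-!
# Project QF: statements of the parts

Twists by the values of products of linear and irreducible quadratic polynomials: all the moments of
`2 ^ rank`, for one variable in short intervals, for prime values of the variable in short intervals,
and for coprime pairs in short squares.
-/

set_option autoImplicit false

namespace Pool.Agent.W307.QF

open Finset Polynomial Pool.Agent.W262.RK Pool.Agent.W307.RT Pool.Agent.W307.RS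

/-- the number of the zeros of a polynomial modulo `p` -/
def nz (P : ℤ[X]) (p : ℕ) : ℕ :=
  ((range p).filter (fun x : ℕ => (p : ℤ) ∣ P.eval (x : ℤ))).card

/-- the multiplicative extension of a function on the primes -/
noncomputable def rr (r : ℕ → ℕ) (d : ℕ) : ℝ := ∏ p ∈ d.primeFactors, (r p : ℝ)

/-- `1 + (e | p)` -/
def re (e : ℤ) (p : ℕ) : ℕ := (1 + jacobiSym e p).toNat

/-- the primes `p ∣ m` with `(D / p | p) = -1` -/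
def ng (m : ℕ) (D : ℤ) : Finset ℕ :=
  m.primeFactors.filter (fun p => jacobiSym (D / (p : ℤ)) p = -1)

/-- the bounds for one weight function `g` -/
structure GB (g : ℕ → ℝ) (w : ℝ) (κ : ℤ) (z : ℕ) (C : ℝ) : Prop where
  g0 : ∀ y, ∀ d ∈ (PP z y).divisors, 0 ≤ g d
  g1 : ∀ y, ∀ d ∈ (PP z y).divisors, g d ≤ 1 / (d : ℝ)
  F1 : ∀ y, z < y → ∑ d ∈ (PP z y).divisors, g d * hh d ≤ C * (Real.log y) ^ w
  F2 : ∀ y V : ℕ, z < y → 2 ≤ V →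
    ∑ d ∈ (PP z y).divisors.filter (fun d => d ≤ V), g d * hh d ≤ C * (Real.log V) ^ w
  F3 : ∀ y Y : ℕ, z < y → 1 ≤ Y →
    ∑ d ∈ (PP z y).divisors.filter (fun d => Y < d), g d * hh d ≤
      C * Real.exp (-(Real.log Y / Real.log y)) * (Real.log y) ^ 2
  E : ∀ (y R r : ℕ) (e : Bool), z < y → R ≠ 0 → 1 < r → Squarefree r →
    (∀ p : ℕ, p.Prime → p ∣ r → z < p) →
    |∑ d ∈ (PP z y).divisors.filter (fun d => d.Coprime R),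
        g d * (Jr d r * Jr κ d * x4 e d)| ≤ C * Real.log r * hh R

/-- ATG: the abstract bound for sums of products of Jacobi symbols, with general weights. -/
def ATG : Prop := ∀ (ι : Type) [Fintype ι] [DecidableEq ι] (w : ι → ℝ) (L : ι → ι → Bool)
  (κ : ι → ℤ) (K : ℝ) (z : ℕ) (g : ι → ℕ → ℝ) (C : ℝ),
  (∀ i, 0 < w i ∧ w i ≤ 1 / 2) → (∀ i, L i i = false) →
  (∀ U : Finset ι, (∀ i ∈ U, ∀ j ∈ U, L i j = L j i) → ∑ i ∈ U, w i ≤ K) → 2 ≤ z → 1 ≤ C →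
  (∀ i, g i 1 = 1) → (∀ i, GB (g i) (w i) (κ i) z C) →
  ∃ C' : ℝ, ∀ y, z < y →
    |∑ d ∈ Tup ι z y, (∏ i, g i (d i)) * Sym L κ d| ≤ C' * (Real.log y) ^ K

/-- GBE: the bounds for the weights `∏_{p ∣ d} w (1 + (e | p)) / (p - c)`. -/
def GBE : Prop := ∀ (w : ℝ) (c : ℕ) (e κ : ℤ), 0 < w → w ≤ 1 / 4 → (e = 0 ∨ ¬ IsSquare e) →
  κ ≠ 0 → ∃ z0 : ℕ, ∀ z, z0 ≤ z → ∃ C : ℝ, 1 ≤ C ∧
    GB (fun d => gw w c d * rr (re e) d) w κ z C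

/-- MER: the sum of a real character over the primes is bounded. -/
def MER : Prop := ∀ e : ℤ, ¬ IsSquare e → ∃ C : ℝ, ∀ z y : ℕ,
  |∑ p ∈ PS z y, Jr e p / (p : ℝ)| ≤ C

/-- EXPE: expansion of the average of the `k`-th power over the signs, with weights. -/
def EXPE : Prop := ∀ (J : Type) [Fintype J] [DecidableEq J] (k : ℕ)
  (κ : J → Fin 3 → ℤ) (r : J → ℕ → ℕ) (c z y : ℕ), 2 ≤ z → (∀ j k, κ j k ≠ 0) →
  (∀ j k, (κ j k).natAbs ≤ z) →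
  ∑ s ∈ Tup J z y, NBK k κ s * ∏ j, (gw 1 c (s j) * rr (r j) (s j)) =
    ∑ d ∈ Tup (IK k J) z y, (∏ i, (gw (1 / 4 ^ k) c (d i) * rr (r i.1.1) (d i))) *
      Sym (LK k) (κK k κ) d

/-- MAE: the main average. -/
def MAE : Prop := ∀ (J : Type) [Fintype J] [DecidableEq J] (k : ℕ) (κ : J → Fin 3 → ℤ)
  (e : J → ℤ) (c : ℕ), 1 ≤ k → (∀ j k, κ j k ≠ 0) → (∀ j, e j = 0 ∨ ¬ IsSquare (e j)) →
  ∃ z0 : ℕ, ∀ z, z0 ≤ z → ∃ C : ℝ, ∀ y, z < y →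
    ∑ s ∈ Tup J z y, NBK k κ s * ∏ j, (gw 1 c (s j) * rr (re (e j)) (s j)) ≤
      C * (Real.log y) ^ (Fintype.card J)

/-- RANKE: the bound of the rank of the twist by `∏ f_j` by the local count. -/
def RANKE : Prop := ∀ (J : Type) [Fintype J] [DecidableEq J] (a : Fin 3 → ℤ)
  (z y X k B : ℕ) (f : J → ℤ), 2 ≤ z → Gd z f → (∀ k, a k ≠ 0) → (∀ k, (a k).natAbs ≤ z) →
  a 0 - a 1 = a 2 → (∀ j, (f j).natAbs ≤ X ^ B) → 1 ≤ X → 1 ≤ y → X < (y + 1) ^ k →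
    2 ^ Module.finrank ℤ (EAB (a 0 * ∏ j, f j) (a 1 * ∏ j, f j)).toAffine.Point ≤
      4 ^ (z + 2) * ((4 ^ B) ^ Fintype.card J) ^ k *
        4 ^ (∑ j, (S2 z y f j).primeFactors.card) *
        NL (∏ j, S1 z y f j) (LLs (c3 J) (fun _ => a) (S1 z y f)
          (ng (∏ j, S1 z y f j) (∏ j, f j)))

/-- AVGA: the moments, from a bound for the number of the values with given small prime factors. -/
def AVGA : Prop := ∀ (J : Type) [Fintype J] [DecidableEq J] (Ω Θ : Type) (T : Θ → Finset Ω)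
  (L : Θ → ℕ) (f : Θ → Ω → J → ℤ) (S : Θ → ℝ) (a : Fin 3 → ℤ) (e : J → ℤ) (c B k0 : ℕ),
  (∀ k, a k ≠ 0) → a 0 - a 1 = a 2 → (∀ j, e j = 0 ∨ ¬ IsSquare (e j)) → 1 ≤ k0 →
  Fintype.card J ≤ c → (∀ θ, 1 ≤ L θ) → (∀ θ, 0 ≤ S θ) →
  (∀ X0 : ℕ, ∃ B' : ℝ, ∀ θ, L θ ≤ X0 → ∑ ω ∈ T θ, ((2 : ℝ) ^ Module.finrank ℤ
    (EAB (a 0 * ∏ j, f θ ω j) (a 1 * ∏ j, f θ ω j)).toAffine.Point) ^ k0 ≤ B' * S θ) →
  (∃ X1 : ℕ, ∀ θ, X1 ≤ L θ → ∀ ω ∈ T θ, ∀ j, (f θ ω j).natAbs ≤ L θ ^ B) →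
  (∃ z1 : ℕ, ∀ z, z1 ≤ z → (∀ θ, ∀ ω ∈ T θ, Gd z (f θ ω)) ∧
    ∃ (C D A : ℝ) (K y0 : ℕ), 0 ≤ C ∧ 1 ≤ D ∧ 1 ≤ A ∧ 1 ≤ K ∧
    ∀ (θ : Θ) (y Y k : ℕ), y0 ≤ y → z < y → y ^ K ≤ L θ → L θ < (y + 1) ^ k →
    ∀ s ∈ Tup J z y, ∀ v ∈ Tup J z y, ∀ u ∈ Tup J y Y, (∏ j, s j * v j * u j) ^ 8 ≤ L θ →
    ∀ (E : Finset ℕ) (T' : Finset Ω), T' ⊆ T θ →
    (∀ ω ∈ T', S1 z y (f θ ω) = s ∧ S2 z y (f θ ω) = v ∧ (∀ j, (u j : ℤ) ∣ f θ ω j) ∧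
      ng (∏ j, s j) (∏ j, f θ ω j) = E) →
    (T'.card : ℝ) ≤ C * D ^ k * S θ * (1 / 2) ^ (∏ j, s j).primeFactors.card *
      (∏ j, (gw 1 c (s j) * rr (re (e j)) (s j))) *
      (∏ j, A ^ (v j).primeFactors.card * (gw 1 (Fintype.card J) (v j) / v j)) *
      (∏ j, 1 / (u j : ℝ)) / (Real.log y) ^ (Fintype.card J)) →
  ∃ C2 : ℝ, ∀ θ, ∑ ω ∈ T θ, ((2 : ℝ) ^ Module.finrank ℤ
    (EAB (a 0 * ∏ j, f θ ω j) (a 1 * ∏ j, f θ ω j)).toAffine.Point) ^ k0 ≤ C2 * S θ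

/-- SVE: upper bound sieve for the values of polynomials in a residue class. -/
def SVE : Prop := ∀ (J : Type) [Fintype J] [DecidableEq J] (r : J → ℕ → ℕ) (c z : ℕ) (C1 : ℝ),
  (∀ p, ∑ j, r j p ≤ c) → 2 * c + 2 ≤ z →
  (∀ y : ℕ, z < y → (Fintype.card J : ℝ) * Real.log (Real.log y) - C1 ≤
    ∑ p ∈ PS z y, ((∑ j, r j p : ℕ) : ℝ) / p) →
  ∃ (C : ℝ) (K y0 : ℕ), 0 ≤ C ∧ 1 ≤ K ∧ ∀ X y : ℕ, y0 ≤ y → z < y → y ^ K ≤ X →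
  ∀ (P : J → ℤ[X]) (m M r0 : ℕ), 1 ≤ m → m ∣ M → M ≠ 0 → m ^ 4 ≤ X →
  (∀ p ∈ PS z y, ¬ p ∣ M → (∀ j, nz (P j) p = r j p) ∧
    ∀ j l, j ≠ l → ∀ x : ℤ, ¬ ((p : ℤ) ∣ (P j).eval x ∧ (p : ℤ) ∣ (P l).eval x)) →
    (((Icc 1 X).filter (fun t : ℕ => t ≡ r0 [MOD m] ∧ ∀ p ∈ PS z y, ¬ p ∣ M →
      ∀ j, ¬ (p : ℤ) ∣ (P j).eval (t : ℤ))).card : ℝ) ≤
      C * (X / m) * (∏ p ∈ M.primeFactors.filter (fun p => p ∈ PS z y),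
        (p : ℝ) / ((p : ℝ) - c)) / (Real.log y) ^ (Fintype.card J)

/-- LOCC: the numbers of the residue classes modulo `p ^ 2` and `p`. -/
def LOCC : Prop := ∀ (J : Type) [Fintype J] [DecidableEq J] (P : J → ℤ[X]) (p : ℕ), p.Prime →
  p ≠ 2 → (∀ j l, j ≠ l → ∀ x : ℤ, ¬ ((p : ℤ) ∣ (P j).eval x ∧ (p : ℤ) ∣ (P l).eval x)) →
  (∀ j, ∀ x : ℤ, ¬ ((p : ℤ) ∣ (P j).eval x ∧ (p : ℤ) ∣ (derivative (P j)).eval x)) →
  (∀ (j : J) (b : Bool), 2 * ((range (p ^ 2)).filter (fun x : ℕ => (p : ℤ) ∣ (P j).eval (x : ℤ) ∧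
    ¬ (p : ℤ) ^ 2 ∣ (P j).eval (x : ℤ) ∧
    (b = true ↔ jacobiSym ((∏ l, (P l).eval (x : ℤ)) / (p : ℤ)) p = -1))).card =
      nz (P j) p * (p - 1)) ∧
  (∀ j, ((range (p ^ 2)).filter (fun x : ℕ => (p : ℤ) ^ 2 ∣ (P j).eval (x : ℤ))).card = nz (P j) p)

/-- CNTE: the number of the `t` with given small prime factors and signs of the values of
polynomials. `M` is the product of the bad primes, they do not divide the values. The values of the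
polynomials `Q i` have no prime factors in `(z, y]` except those of `M`. -/
def CNTE : Prop := ∀ (J I : Type) [Fintype J] [DecidableEq J] [Fintype I] [DecidableEq I]
  (r : J → ℕ → ℕ) (q : I → ℕ → ℕ) (c z : ℕ) (C1 : ℝ),
  (∀ p, ∑ j, r j p + ∑ i, q i p ≤ c) → 2 * c + 2 ≤ z →
  (∀ y : ℕ, z < y → ((Fintype.card J + Fintype.card I : ℕ) : ℝ) * Real.log (Real.log y) - C1 ≤
    ∑ p ∈ PS z y, ((∑ j, r j p + ∑ i, q i p : ℕ) : ℝ) / p) →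
  ∃ (C : ℝ) (K y0 : ℕ), 0 ≤ C ∧ 1 ≤ K ∧
  ∀ (P : J → ℤ[X]) (Q : I → ℤ[X]) (M X y Y : ℕ), M ≠ 0 → y0 ≤ y → z < y → y ^ K ≤ X →
  (∀ p : ℕ, p.Prime → z < p → ¬ p ∣ M → (∀ j, nz (P j) p = r j p) ∧ (∀ i, nz (Q i) p = q i p) ∧
    (∀ x : ℤ, (∀ j l, j ≠ l → ¬ ((p : ℤ) ∣ (P j).eval x ∧ (p : ℤ) ∣ (P l).eval x)) ∧
      (∀ i l, i ≠ l → ¬ ((p : ℤ) ∣ (Q i).eval x ∧ (p : ℤ) ∣ (Q l).eval x)) ∧
      (∀ j i, ¬ ((p : ℤ) ∣ (P j).eval x ∧ (p : ℤ) ∣ (Q i).eval x)) ∧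
      (∀ j, ¬ ((p : ℤ) ∣ (P j).eval x ∧ (p : ℤ) ∣ (derivative (P j)).eval x)))) →
  ∀ s ∈ Tup J z y, ∀ v ∈ Tup J z y, ∀ u ∈ Tup J y Y, (∏ j, s j * v j * u j) ^ 8 ≤ X →
  ∀ E : Finset ℕ,
    (((Icc 1 X).filter (fun t : ℕ =>
      (∀ p ∈ M.primeFactors, z < p → ∀ j, ¬ (p : ℤ) ∣ (P j).eval (t : ℤ)) ∧
      S1 z y (fun j => (P j).eval (t : ℤ)) = s ∧ S2 z y (fun j => (P j).eval (t : ℤ)) = v ∧
      (∀ j, (u j : ℤ) ∣ (P j).eval (t : ℤ)) ∧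
      (∀ p ∈ PS z y, ¬ p ∣ M → ∀ i, ¬ (p : ℤ) ∣ (Q i).eval (t : ℤ)) ∧
      ng (∏ j, s j) (∏ j, (P j).eval (t : ℤ)) = E)).card : ℝ) ≤
      C * X * (1 / 2) ^ (∏ j, s j).primeFactors.card *
        (∏ j, (gw 1 c (s j) * rr (r j) (s j))) *
        (∏ j, (c : ℝ) ^ (v j).primeFactors.card * (gw 1 c (v j) / v j)) *
        (∏ j, (c : ℝ) ^ (u j).primeFactors.card * (1 / (u j : ℝ))) *
        (∏ p ∈ M.primeFactors.filter (fun p => z < p), (p : ℝ) / ((p : ℝ) - c)) /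
        (Real.log y) ^ (Fintype.card J + Fintype.card I)

/-- MERL: lower bound for the sum of the weights. -/
def MERL : Prop := ∀ (J : Type) [Fintype J] (e : J → ℤ) (z : ℕ),
  (∀ j, e j = 0 ∨ ¬ IsSquare (e j)) → ∃ C1 : ℝ, ∀ y : ℕ, z < y →
    (Fintype.card J : ℝ) * Real.log (Real.log y) - C1 ≤
      ∑ p ∈ PS z y, ((∑ j, re (e j) p : ℕ) : ℝ) / p

/-- NZL: the number of the zeros of irreducible polynomials of degree one and two. -/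
def NZL : Prop := ∀ P : ℤ[X], (P.natDegree = 1 ∨ P.natDegree = 2) →
  Irreducible (P.map (Int.castRingHom ℚ)) → ∃ (e : ℤ) (p0 : ℕ), (e = 0 ∨ ¬ IsSquare e) ∧
    ∀ p : ℕ, p.Prime → p0 < p → nz P p = re e p

/-- NZB: the same for a binary quadratic form with one variable fixed. -/
def NZB : Prop := ∀ a b c : ℤ, ¬ IsSquare (b ^ 2 - 4 * a * c) → ∃ p0 : ℕ, ∀ (p : ℕ) (n w : ℤ),
  p.Prime → p0 < p → ¬ (p : ℤ) ∣ w →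
    nz (C a * (X + C n) ^ 2 + C (b * w) * (X + C n) + C (c * w ^ 2)) p = re (b ^ 2 - 4 * a * c) p

/-- COP: coprime polynomials have no common zeros modulo large primes. -/
def COP : Prop := ∀ P Q : ℤ[X], IsCoprime (P.map (Int.castRingHom ℚ)) (Q.map (Int.castRingHom ℚ)) →
  ∃ p0 : ℕ, ∀ p : ℕ, p.Prime → p0 < p → ∀ x : ℤ, ¬ ((p : ℤ) ∣ P.eval x ∧ (p : ℤ) ∣ Q.eval x)

/-- the data of the theorems in one variable -/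
structure DatA (J : Type) (P : J → ℤ[X]) (e : J → ℤ) : Prop where
  sq : ∀ j, e j = 0 ∨ ¬ IsSquare (e j)
  nz' : ∃ p0 : ℕ, ∀ p : ℕ, p.Prime → p0 < p → ∀ j, nz (P j) p = re (e j) p
  cop : ∀ j l, j ≠ l → IsCoprime ((P j).map (Int.castRingHom ℚ)) ((P l).map (Int.castRingHom ℚ))
  sep : ∀ j, IsCoprime ((P j).map (Int.castRingHom ℚ))
    ((derivative (P j)).map (Int.castRingHom ℚ))

/-- AVA: the moments in short intervals. -/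
def AVA : Prop := ∀ (J : Type) [Fintype J] [DecidableEq J] (P : J → ℤ[X]) (e : J → ℤ)
  (a : Fin 3 → ℤ) (k B : ℕ), DatA J P e → (∀ k, a k ≠ 0) → a 0 - a 1 = a 2 → 1 ≤ k →
  ∃ C : ℝ, ∀ (N : ℤ) (X : ℕ), 1 ≤ X → N.natAbs ≤ X ^ B →
    ∑ t ∈ (Icc 1 X).filter (fun t : ℕ => ∀ j, (P j).eval (N + (t : ℤ)) ≠ 0),
      ((2 : ℝ) ^ Module.finrank ℤ (EAB (a 0 * ∏ j, (P j).eval (N + (t : ℤ)))
        (a 1 * ∏ j, (P j).eval (N + (t : ℤ)))).toAffine.Point) ^ k ≤ C * X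

/-- AVB: the moments over the primes of short intervals. -/
def AVB : Prop := ∀ (J : Type) [Fintype J] [DecidableEq J] (P : J → ℤ[X]) (e : J → ℤ)
  (a : Fin 3 → ℤ) (k B : ℕ), DatA J P e → (∀ j, (P j).eval 0 ≠ 0) → (∀ k, a k ≠ 0) →
  a 0 - a 1 = a 2 → 1 ≤ k →
  ∃ C : ℝ, ∀ (N : ℤ) (X : ℕ), 2 ≤ X → N.natAbs ≤ X ^ B →
    ∑ t ∈ (Icc 1 X).filter (fun t : ℕ => (N + (t : ℤ)).toNat.Prime ∧
      ∀ j, (P j).eval (N + (t : ℤ)) ≠ 0),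
      ((2 : ℝ) ^ Module.finrank ℤ (EAB (a 0 * ∏ j, (P j).eval (N + (t : ℤ)))
        (a 1 * ∏ j, (P j).eval (N + (t : ℤ)))).toAffine.Point) ^ k ≤ C * (X / Real.log X)

/-! ### Two variables -/

/-- the values of linear and quadratic binary forms -/
def fb {J1 J2 : Type} (α β : J1 → ℤ) (qa qb qc : J2 → ℤ) (u v : ℤ) : J1 ⊕ J2 → ℤ :=
  Sum.elim (fun j => α j * u + β j * v) (fun j => qa j * u ^ 2 + qb j * (u * v) + qc j * v ^ 2)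

/-- the hypotheses on the forms: pairwise non-proportional, the quadratic forms irreducible -/
structure DatC {J1 J2 : Type} (α β : J1 → ℤ) (qa qb qc : J2 → ℤ) : Prop where
  lin : ∀ i j, i ≠ j → α i * β j ≠ α j * β i
  nz0 : ∀ i, α i ≠ 0 ∨ β i ≠ 0
  irr : ∀ j, ¬ IsSquare (qb j ^ 2 - 4 * qa j * qc j)
  quad : ∀ i j, i ≠ j → ¬ (qa i * qb j = qa j * qb i ∧ qa i * qc j = qa j * qc i ∧
    qb i * qc j = qb j * qc i)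

/-- AVHS for a fixed exponent of the size of the second variable is `AVHS` of project RS.

NCZ: no common zeros of the forms modulo large primes. -/
def NCZ : Prop := ∀ (J1 J2 : Type) [Fintype J1] [DecidableEq J1] [Fintype J2] [DecidableEq J2]
  (α β : J1 → ℤ) (qa qb qc : J2 → ℤ), DatC α β qa qb qc → (∀ i, α i ≠ 0) →
  ∃ p0 : ℕ, ∀ p : ℕ, p.Prime → p0 < p → (∀ i, ¬ (p : ℤ) ∣ α i) ∧ (∀ j, ¬ (p : ℤ) ∣ qa j) ∧
    ∀ u v : ℤ, ¬ (p : ℤ) ∣ v → ∀ i j : J1 ⊕ J2, i ≠ j →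
      ¬ ((p : ℤ) ∣ fb α β qa qb qc u v i ∧ (p : ℤ) ∣ fb α β qa qb qc u v j)

/-- AVC: the moments over the coprime pairs of short squares, if the coefficients of `u` are not
zero. -/
def AVC : Prop := ∀ (J1 J2 : Type) [Fintype J1] [DecidableEq J1] [Fintype J2] [DecidableEq J2]
  (α β : J1 → ℤ) (qa qb qc : J2 → ℤ) (a : Fin 3 → ℤ) (k B : ℕ), DatC α β qa qb qc →
  (∀ i, α i ≠ 0) → (∀ k, a k ≠ 0) → a 0 - a 1 = a 2 → 1 ≤ k →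
  ∃ C : ℝ, ∀ (N1 N2 : ℤ) (X : ℕ), 1 ≤ X → N1.natAbs ≤ X ^ B → N2.natAbs ≤ X ^ B →
    ∑ t ∈ (Icc 1 X ×ˢ Icc 1 X).filter (fun t : ℕ × ℕ =>
      IsCoprime (N1 + (t.1 : ℤ)) (N2 + (t.2 : ℤ)) ∧
      ∀ j, fb α β qa qb qc (N1 + (t.1 : ℤ)) (N2 + (t.2 : ℤ)) j ≠ 0),
      ((2 : ℝ) ^ Module.finrank ℤ
        (EAB (a 0 * ∏ j, fb α β qa qb qc (N1 + (t.1 : ℤ)) (N2 + (t.2 : ℤ)) j)
        (a 1 * ∏ j, fb α β qa qb qc (N1 + (t.1 : ℤ)) (N2 + (t.2 : ℤ)) j)).toAffine.Point) ^ k ≤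
      C * X ^ 2

/-- AVD: the moments over the coprime pairs of short squares. -/
def AVD : Prop := ∀ (J1 J2 : Type) [Fintype J1] [DecidableEq J1] [Fintype J2] [DecidableEq J2]
  (α β : J1 → ℤ) (qa qb qc : J2 → ℤ) (a : Fin 3 → ℤ) (k B : ℕ), DatC α β qa qb qc →
  (∀ k, a k ≠ 0) → a 0 - a 1 = a 2 → 1 ≤ k →
  ∃ C : ℝ, ∀ (U V : ℤ) (X : ℕ), 1 ≤ X → U.natAbs ≤ X ^ B → V.natAbs ≤ X ^ B →
    ∑ t ∈ (Ioc U (U + X) ×ˢ Ioc V (V + X)).filter (fun t : ℤ × ℤ =>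
      IsCoprime t.1 t.2 ∧ ∏ j, fb α β qa qb qc t.1 t.2 j ≠ 0),
      ((2 : ℝ) ^ Module.finrank ℤ (EAB (a 0 * ∏ j, fb α β qa qb qc t.1 t.2 j)
        (a 1 * ∏ j, fb α β qa qb qc t.1 t.2 j)).toAffine.Point) ^ k ≤ C * X ^ 2

end Pool.Agent.W307.QF
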