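import Mathlib
import Pool.Agent.W307.QF.Stm
import Pool.Agent.W307.RS.Final2

/-! Project QF: from the moments to the twists of a curve with full 2-torsion. -/

set_option autoImplicit false

namespace Pool.Agent.W307.QF

open Finset Polynomial Pool.Agent.W262.RK Pool.Agent.W307.RT Pool.Agent.W307.RS

/-- the differences of the roots -/
lemma roots_diff {A B e1 e2 e3 : ℤ} (hD : 4 * A ^ 3 + 27 * B ^ 2 ≠ 0)
    (h : ∀ x : ℤ, x ^ 3 + A * x + B = (x - e1) * (x - e2) * (x - e3)) :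
    e2 - e1 ≠ 0 ∧ e3 - e1 ≠ 0 ∧ e2 - e3 ≠ 0 := by
  have h0 := h 0
  have h1 := h 1
  have h2 := h (-1)
  have hs : e1 + e2 + e3 = 0 := by linarith
  have hA : A = e1 * e2 + e1 * e3 + e2 * e3 := by linarith
  have hB : B = -(e1 * e2 * e3) := by linarith
  have he3 : e3 = -e1 - e2 := by linarith
  have hdisc : 4 * A ^ 3 + 27 * B ^ 2 = -((e1 - e2) * (e1 - e3) * (e2 - e3)) ^ 2 := by
    rw [hA, hB, he3]; ring
  rw [hdisc] at hD
  refine ⟨?_, ?_, ?_⟩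
  · intro h'; apply hD; rw [show e1 - e2 = -(e2 - e1) by ring, h']; ring
  · intro h'; apply hD; rw [show e1 - e3 = -(e3 - e1) by ring, h']; ring
  · intro h'; apply hD; rw [h']; ring

/-- the data of irreducible linear and quadratic polynomials -/
lemma datA_of (hN : NZL) {m : ℕ} (P : Fin m → ℤ[X])
    (hdeg : ∀ i, (P i).natDegree = 1 ∨ (P i).natDegree = 2)
    (hirr : ∀ i, Irreducible ((P i).map (Int.castRingHom ℚ)))
    (hne : ∀ i j, i ≠ j →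
      ¬ Associated ((P i).map (Int.castRingHom ℚ)) ((P j).map (Int.castRingHom ℚ))) :
    ∃ e : Fin m → ℤ, DatA (Fin m) P e := by
  choose e p0 he hp using fun i => hN (P i) (hdeg i) (hirr i)
  refine ⟨e, he, ⟨∑ i, p0 i, fun p hpp hlt j => hp j p hpp (lt_of_le_of_lt
    (single_le_sum (f := p0) (fun _ _ => Nat.zero_le _) (mem_univ j)) hlt)⟩, fun i j hij => ?_,
    fun i => ?_⟩
  · rcases (hirr i).isCoprime_or_dvd ((P j).map (Int.castRingHom ℚ)) with h | h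
    · exact h
    · exact absurd ((hirr i).associated_of_dvd (hirr j) h) (hne i j hij)
  · have h1 := (hirr i).separable
    rw [Polynomial.separable_def] at h1
    rwa [Polynomial.derivative_map] at h1

/-- short intervals -/
theorem finA_of (hA : AVA) (hN : NZL) {A B e1 e2 e3 : ℤ} (hD : 4 * A ^ 3 + 27 * B ^ 2 ≠ 0)
    (h : ∀ x : ℤ, x ^ 3 + A * x + B = (x - e1) * (x - e2) * (x - e3))
    {m : ℕ} (P : Fin m → ℤ[X]) (hdeg : ∀ i, (P i).natDegree = 1 ∨ (P i).natDegree = 2)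
    (hirr : ∀ i, Irreducible ((P i).map (Int.castRingHom ℚ)))
    (hne : ∀ i j, i ≠ j →
      ¬ Associated ((P i).map (Int.castRingHom ℚ)) ((P j).map (Int.castRingHom ℚ))) (k L : ℕ) :
    ∃ C : ℝ, ∀ (N : ℤ) (M : ℕ), 1 ≤ M → |N| ≤ (M : ℤ) ^ L →
      ∑ t ∈ (Ioc N (N + M)).filter (fun t => ∏ i, (P i).eval t ≠ 0),
        ((2 : ℝ) ^ Module.finrank ℤ (Sh ((∏ i, (P i).eval t) ^ 2 * A)
          ((∏ i, (P i).eval t) ^ 3 * B)).toAffine.Point) ^ k ≤ C * M := by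
  obtain ⟨e, hdat⟩ := datA_of hN P hdeg hirr hne
  obtain ⟨h12, h13, h23⟩ := roots_diff hD h
  obtain ⟨C, hC⟩ := hA (Fin m) P e ![e2 - e1, e3 - e1, e2 - e3] (k + 1) L hdat
    (by
      intro i
      fin_cases i
      · exact h12
      · exact h13
      · exact h23)
    (by
      change (e2 - e1) - (e3 - e1) = e2 - e3
      ring) (by omega)
  refine ⟨C, fun N M hM hN => ?_⟩
  have hN' : N.natAbs ≤ M ^ L := by
    have : ((N.natAbs : ℕ) : ℤ) ≤ ((M ^ L : ℕ) : ℤ) := by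
      rw [Int.natCast_natAbs]
      push_cast
      exact hN
    exact_mod_cast this
  set g : ℤ → ℝ := fun t => ((2 : ℝ) ^ Module.finrank ℤ (EAB ((![e2 - e1, e3 - e1, e2 - e3] :
    Fin 3 → ℤ) 0 * ∏ j, (P j).eval t) ((![e2 - e1, e3 - e1, e2 - e3] : Fin 3 → ℤ) 1 *
      ∏ j, (P j).eval t)).toAffine.Point) ^ (k + 1) with hg
  have hinj : Set.InjOn (fun t : ℕ => N + (t : ℤ)) ((Icc 1 M).filter
      (fun t : ℕ => ∀ j, (P j).eval (N + (t : ℤ)) ≠ 0) : Set ℕ) := by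
    intro a _ b _ hab
    have : N + (a : ℤ) = N + (b : ℤ) := hab
    omega
  have hsum : ∑ t ∈ (Icc 1 M).filter (fun t : ℕ => ∀ j, (P j).eval (N + (t : ℤ)) ≠ 0),
      g (N + (t : ℤ)) = ∑ t ∈ ((Icc 1 M).filter
        (fun t : ℕ => ∀ j, (P j).eval (N + (t : ℤ)) ≠ 0)).image (fun t : ℕ => N + (t : ℤ)), g t :=
    (sum_image hinj).symm
  have hE : ∑ t ∈ (Icc 1 M).filter (fun t : ℕ => ∀ j, (P j).eval (N + (t : ℤ)) ≠ 0),
      g (N + (t : ℤ)) ≤ C * M := by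
    convert hC N M hM hN'
  refine le_trans ?_ hE
  rw [hsum]
  refine le_trans (sum_le_sum (g := g) fun t _ => ?_) (sum_le_sum_of_subset_of_nonneg ?_ ?_)
  · rw [tw_rank h]
    exact pow_le_pow_right₀ (one_le_pow₀ (by norm_num)) (Nat.le_succ k)
  · intro t ht
    rw [mem_filter, mem_Ioc] at ht
    obtain ⟨⟨ht1, ht2⟩, ht3⟩ := ht
    rw [mem_image]
    refine ⟨(t - N).toNat, ?_, ?_⟩
    · rw [mem_filter, mem_Icc]
      have h5 : N + (((t - N).toNat : ℕ) : ℤ) = t := by omega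
      refine ⟨by omega, fun j => ?_⟩
      rw [h5]
      exact prod_ne_zero_iff.1 ht3 j (mem_univ j)
    · show N + (((t - N).toNat : ℕ) : ℤ) = t
      omega
  · intro t _ _
    positivity

/-- the primes of short intervals -/
theorem finB_of (hB : AVB) (hN : NZL) {A B e1 e2 e3 : ℤ} (hD : 4 * A ^ 3 + 27 * B ^ 2 ≠ 0)
    (h : ∀ x : ℤ, x ^ 3 + A * x + B = (x - e1) * (x - e2) * (x - e3))
    {m : ℕ} (P : Fin m → ℤ[X]) (hdeg : ∀ i, (P i).natDegree = 1 ∨ (P i).natDegree = 2)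
    (hirr : ∀ i, Irreducible ((P i).map (Int.castRingHom ℚ)))
    (hne : ∀ i j, i ≠ j →
      ¬ Associated ((P i).map (Int.castRingHom ℚ)) ((P j).map (Int.castRingHom ℚ)))
    (h0 : ∀ i, (P i).eval 0 ≠ 0) (k L : ℕ) :
    ∃ C : ℝ, ∀ N M : ℕ, 2 ≤ M → N ≤ M ^ L →
      ∑ p ∈ (Ioc N (N + M)).filter (fun p : ℕ => p.Prime ∧ ∏ i, (P i).eval (p : ℤ) ≠ 0),
        ((2 : ℝ) ^ Module.finrank ℤ (Sh ((∏ i, (P i).eval (p : ℤ)) ^ 2 * A)
          ((∏ i, (P i).eval (p : ℤ)) ^ 3 * B)).toAffine.Point) ^ k ≤ C * (M / Real.log M) := by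
  obtain ⟨e, hdat⟩ := datA_of hN P hdeg hirr hne
  obtain ⟨h12, h13, h23⟩ := roots_diff hD h
  obtain ⟨C, hC⟩ := hB (Fin m) P e ![e2 - e1, e3 - e1, e2 - e3] (k + 1) L hdat h0
    (by
      intro i
      fin_cases i
      · exact h12
      · exact h13
      · exact h23)
    (by
      change (e2 - e1) - (e3 - e1) = e2 - e3
      ring) (by omega)
  refine ⟨C, fun N M hM hN => ?_⟩
  obtain ⟨g, hg⟩ : ∃ g : ℕ → ℝ, g = fun t : ℕ => ((2 : ℝ) ^ Module.finrank ℤ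
    (EAB ((![e2 - e1, e3 - e1, e2 - e3] : Fin 3 → ℤ) 0 * ∏ j, (P j).eval ((N : ℤ) + (t : ℤ)))
      ((![e2 - e1, e3 - e1, e2 - e3] : Fin 3 → ℤ) 1 *
        ∏ j, (P j).eval ((N : ℤ) + (t : ℤ)))).toAffine.Point) ^ (k + 1) := ⟨_, rfl⟩
  have hE : ∑ t ∈ (Icc 1 M).filter (fun t : ℕ => ((N : ℤ) + (t : ℤ)).toNat.Prime ∧
      ∀ j, (P j).eval ((N : ℤ) + (t : ℤ)) ≠ 0), g t ≤ C * (M / Real.log M) := by
    rw [hg]
    convert hC (N : ℤ) M hM (by simpa using hN)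
  refine le_trans ?_ hE
  have himg : (Ioc N (N + M)).filter (fun p : ℕ => p.Prime ∧ ∏ i, (P i).eval (p : ℤ) ≠ 0) =
      ((Icc 1 M).filter (fun t : ℕ => ((N : ℤ) + (t : ℤ)).toNat.Prime ∧
        ∀ j, (P j).eval ((N : ℤ) + (t : ℤ)) ≠ 0)).image (fun t => N + t) := by
    ext p
    simp only [mem_filter, mem_Ioc, mem_image, mem_Icc]
    constructor
    · rintro ⟨⟨h1, h2⟩, h3, h4⟩
      refine ⟨p - N, ⟨⟨by omega, by omega⟩, ?_, fun j => ?_⟩, by omega⟩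
      · have h5 : ((N : ℤ) + ((p - N : ℕ) : ℤ)).toNat = p := by omega
        rw [h5]
        exact h3
      · have h5 : (N : ℤ) + ((p - N : ℕ) : ℤ) = p := by omega
        rw [h5]
        exact prod_ne_zero_iff.1 h4 j (mem_univ j)
    · rintro ⟨t, ⟨⟨h1, h2⟩, h3, h4⟩, rfl⟩
      refine ⟨⟨by omega, by omega⟩, ?_, ?_⟩
      · have h5 : ((N : ℤ) + (t : ℤ)).toNat = N + t := by omega
        rwa [h5] at h3
      · rw [prod_ne_zero_iff]
        intro j _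
        have h5 := h4 j
        push_cast
        exact h5
  rw [himg, sum_image (fun a _ b _ hab => by
    have : N + a = N + b := hab
    omega)]
  have h8 : ∀ t : ℕ, ((2 : ℝ) ^ Module.finrank ℤ (Sh ((∏ i, (P i).eval ((N + t : ℕ) : ℤ)) ^ 2 * A)
      ((∏ i, (P i).eval ((N + t : ℕ) : ℤ)) ^ 3 * B)).toAffine.Point) ^ k ≤ g t := by
    intro t
    rw [tw_rank h, hg]
    have h7 : ((N + t : ℕ) : ℤ) = (N : ℤ) + (t : ℤ) := by push_cast; ring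
    rw [h7]
    exact pow_le_pow_right₀ (one_le_pow₀ (by norm_num)) (Nat.le_succ k)
  exact sum_le_sum fun t _ => h8 t

/-- two variables -/
theorem finC_of (hD' : AVD) {A B e1 e2 e3 : ℤ} (hD : 4 * A ^ 3 + 27 * B ^ 2 ≠ 0)
    (h : ∀ x : ℤ, x ^ 3 + A * x + B = (x - e1) * (x - e2) * (x - e3))
    {m n : ℕ} (α β : Fin m → ℤ) (qa qb qc : Fin n → ℤ) (hd : DatC α β qa qb qc) (k L : ℕ) :
    ∃ C : ℝ, ∀ (U V : ℤ) (X : ℕ), 1 ≤ X → |U| ≤ (X : ℤ) ^ L → |V| ≤ (X : ℤ) ^ L →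
      ∑ t ∈ (Ioc U (U + X) ×ˢ Ioc V (V + X)).filter (fun t : ℤ × ℤ =>
        IsCoprime t.1 t.2 ∧ (∏ i, (α i * t.1 + β i * t.2)) *
          (∏ j, (qa j * t.1 ^ 2 + qb j * (t.1 * t.2) + qc j * t.2 ^ 2)) ≠ 0),
        ((2 : ℝ) ^ Module.finrank ℤ
          (Sh (((∏ i, (α i * t.1 + β i * t.2)) *
            (∏ j, (qa j * t.1 ^ 2 + qb j * (t.1 * t.2) + qc j * t.2 ^ 2))) ^ 2 * A)
          (((∏ i, (α i * t.1 + β i * t.2)) *
            (∏ j, (qa j * t.1 ^ 2 + qb j * (t.1 * t.2) + qc j * t.2 ^ 2))) ^ 3 * B)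
            ).toAffine.Point) ^ k ≤ C * (X : ℝ) ^ 2 := by
  obtain ⟨h12, h13, h23⟩ := roots_diff hD h
  obtain ⟨C, hC⟩ := hD' (Fin m) (Fin n) α β qa qb qc ![e2 - e1, e3 - e1, e2 - e3] (k + 1) L hd
    (by
      intro i
      fin_cases i
      · exact h12
      · exact h13
      · exact h23)
    (by
      change (e2 - e1) - (e3 - e1) = e2 - e3
      ring) (by omega)
  have hprod : ∀ u v : ℤ, ∏ j, fb α β qa qb qc u v j = (∏ i, (α i * u + β i * v)) *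
      (∏ j, (qa j * u ^ 2 + qb j * (u * v) + qc j * v ^ 2)) := by
    intro u v
    rw [Fintype.prod_sum_type]
    rfl
  have hab : ∀ (a : ℤ) (X : ℕ), |a| ≤ (X : ℤ) ^ L → a.natAbs ≤ X ^ L := by
    intro a X ha
    have : ((a.natAbs : ℕ) : ℤ) ≤ ((X ^ L : ℕ) : ℤ) := by
      rw [Int.natCast_natAbs]
      push_cast
      exact ha
    exact_mod_cast this
  obtain ⟨R, hR⟩ : ∃ R : ℤ → ℝ, R = fun d : ℤ => ((2 : ℝ) ^ Module.finrank ℤ
    (Sh (d ^ 2 * A) (d ^ 3 * B)).toAffine.Point) ^ k := ⟨_, rfl⟩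
  obtain ⟨R', hR'⟩ : ∃ R' : ℤ → ℝ, R' = fun d : ℤ => ((2 : ℝ) ^ Module.finrank ℤ
    (EAB ((![e2 - e1, e3 - e1, e2 - e3] : Fin 3 → ℤ) 0 * d)
      ((![e2 - e1, e3 - e1, e2 - e3] : Fin 3 → ℤ) 1 * d)).toAffine.Point) ^ (k + 1) := ⟨_, rfl⟩
  have hRR : ∀ d, R d ≤ R' d := by
    intro d
    rw [hR, hR']
    simp only
    rw [tw_rank h]
    exact pow_le_pow_right₀ (one_le_pow₀ (by norm_num)) (Nat.le_succ k)
  refine ⟨C, fun U V X hX hU hV => ?_⟩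
  have h6 : ∑ t ∈ (Ioc U (U + X) ×ˢ Ioc V (V + X)).filter (fun t : ℤ × ℤ =>
      IsCoprime t.1 t.2 ∧ ∏ j, fb α β qa qb qc t.1 t.2 j ≠ 0),
      R' (∏ j, fb α β qa qb qc t.1 t.2 j) ≤ C * (X : ℝ) ^ 2 := by
    rw [hR']
    exact hC U V X hX (hab U X hU) (hab V X hV)
  simp only [hprod] at h6
  have h7 : ∑ t ∈ (Ioc U (U + X) ×ˢ Ioc V (V + X)).filter (fun t : ℤ × ℤ =>
      IsCoprime t.1 t.2 ∧ (∏ i, (α i * t.1 + β i * t.2)) *
        (∏ j, (qa j * t.1 ^ 2 + qb j * (t.1 * t.2) + qc j * t.2 ^ 2)) ≠ 0),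
      R ((∏ i, (α i * t.1 + β i * t.2)) *
        (∏ j, (qa j * t.1 ^ 2 + qb j * (t.1 * t.2) + qc j * t.2 ^ 2))) ≤ C * (X : ℝ) ^ 2 :=
    (sum_le_sum fun t _ => hRR _).trans h6
  rw [hR] at h7
  exact h7

end Pool.Agent.W307.QF
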