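import Mathlib
import Pool.Agent.W307.QF.FinA
import Pool.Agent.W790.QF.EXPE
import Pool.Agent.W216.QF.MAE
import Pool.Agent.W762.QF.GBE
import Pool.Agent.W349.QF.ATG
import Pool.Agent.W349.QF.MERL
import Pool.Agent.W991.QF.Ranke
import Pool.Agent.W612.QF.Cnte
import Pool.Agent.W486.QF.NZLp
import Pool.Agent.W216.QF.COP
import Pool.Agent.W863.QF.NCZ
import Pool.Agent.W409.QF.AVA
import Pool.Agent.W856.QF.AVB
import Pool.Agent.W975.QF.AVC
import Pool.Agent.W54.QF.AVD
import Pool.Agent.W315.QF.NZB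
import Pool.Agent.W479.QF.LOCC
import Pool.Agent.W565.QF.SVE
import Pool.Agent.W440.QF.AVGAF
import Pool.Agent.W400.QF.Mer
import Pool.Agent.W405.RS.AVHS

/-! Project QF: the results. -/

set_option autoImplicit false

namespace Pool.Agent.W307.QF

theorem avga : AVGA :=
  W440.QF.avga_of Pool.Agent.W991.QF.ranke
    (Pool.Agent.W216.QF.mae_of Pool.Agent.W349.QF.atg
      (Pool.Agent.W762.QF.gbe_of Pool.Agent.W400.QF.mer) Pool.Agent.W790.QF.expe)

theorem cnte : CNTE :=
  Pool.Agent.W612.QF.cnte_of Pool.Agent.W565.QF.SVE.sve Pool.Agent.W479.QF.locc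

theorem merl : MERL := Pool.Agent.W349.QF.merl_of Pool.Agent.W400.QF.mer

theorem ava : AVA := Pool.Agent.W409.QF.ava_of avga cnte merl Pool.Agent.W216.QF.cop

theorem avb : AVB := Pool.Agent.W856.QF.avb_of avga cnte merl Pool.Agent.W216.QF.cop ava

theorem avd : AVD :=
  Pool.Agent.W54.QF.avd_of (Pool.Agent.W975.QF.avc_of avga cnte merl Pool.Agent.W315.QF.nzb
    Pool.Agent.W863.QF.ncz Pool.Agent.W405.RS.avhs)

theorem nzl : NZL := Pool.Agent.W486.QF.nzl

end Pool.Agent.W307.QF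

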